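import Pool.Agent.Helper45.CF.GoalsC
import Pool.Agent.Helper44.CAR.UNT

/-!
# Project CF, second stage (MP_d97caa_an): packet CF2-UNTI
-/

open scoped ComplexOrder ZeroAtInfty Topology ComplexConjugate NNReal

namespace Pool.Agent.Helper54.CF2.UNTI

open Pool.Agent.Helper34.CAR Pool.Agent.Helper45.CF Pool.Agent.Helper44.CAR

theorem t : S_UNTI := by
  intro X X' _ _ u hX F ε hε
  classical
  obtain ⟨J, fJ, dJ, σ, v, hv, hσ⟩ := hX (F.image fun b => b.snd) ε hε
  set S : X := ∑ p, star (v p) * v p with hSdef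
  have hS : IsSelfAdjoint S := by
    rw [isSelfAdjoint_iff, hSdef, star_sum]
    exact Finset.sum_congr rfl fun p _ => by rw [star_mul, star_star]
  obtain ⟨t, ht⟩ := exists_compl X S hS hv
  let ι : X →⋆ₙₐ[ℂ] Unitization ℂ X := Unitization.inrNonUnitalStarAlgHom ℂ X
  have hι : ∀ x : X, (x : Unitization ℂ X) = ι x := fun x => rfl
  let σ' : Unitization ℂ X' →⋆ₐ[ℂ] CStarMatrix (Option J) (Option J) ℂ :=
    Unitization.starLift ((exh J).comp σ)
  let v' : Option J → Unitization ℂ X := fun x => match x with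
    | none => t
    | some p => ι (v p)
  have hσ' : ∀ b : Unitization ℂ X, σ' (Unitization.starMap u b) =
      b.fst • 1 + exm (σ (u b.snd)) := by
    intro b
    have h0 : ∀ c : Unitization ℂ X', σ' c = c.fst • 1 + exm (σ c.snd) := by
      intro c
      change algebraMap ℂ _ c.fst + exm (σ c.snd) = _
      rw [Algebra.algebraMap_eq_smul_one]
    rw [h0, starMap_fst, starMap_snd]
  have hsum : ∑ p, star (v' p) * v' p = 1 := by
    rw [Fintype.sum_option]
    change star t * t + ∑ p, star (ι (v p)) * ι (v p) = 1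
    have : ∑ p, star (ι (v p)) * ι (v p) = ι S := by
      rw [hSdef, map_sum]
      exact Finset.sum_congr rfl fun p _ => by rw [map_mul, map_star]
    rw [this, ht, hι, sub_add_cancel]
  refine ⟨Option J, inferInstance, inferInstance, σ', v', hsum, fun b hb => ?_⟩
  have e1 : qf (exm (σ (u b.snd))) v' = ι (qf (σ (u b.snd)) v) := by
    unfold qf
    rw [Fintype.sum_option]
    have a1 : ∑ q, exm (σ (u b.snd)) none q • (star (v' none) * v' q) = 0 :=
      Finset.sum_eq_zero fun q _ => by rw [exm_n, zero_smul]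
    rw [a1, zero_add, map_sum]
    refine Finset.sum_congr rfl fun p _ => ?_
    rw [Fintype.sum_option, exm_n', zero_smul, zero_add, map_sum]
    refine Finset.sum_congr rfl fun q _ => ?_
    rw [exm_ss, map_smul, map_mul, map_star]
  have e2 : qf ((b.fst • 1 : CStarMatrix (Option J) (Option J) ℂ)) v' = b.fst • 1 := by
    rw [← hsum]
    unfold qf
    rw [Finset.smul_sum]
    refine Finset.sum_congr rfl fun p _ => ?_
    rw [Finset.sum_eq_single p]
    · rw [CStarMatrix.smul_apply, CStarMatrix.one_apply, if_pos rfl, smul_eq_mul, mul_one]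
    · intro q _ hq
      rw [CStarMatrix.smul_apply, CStarMatrix.one_apply, if_neg hq.symm, smul_zero, zero_smul]
    · simp
  have e3 : qf (σ' (Unitization.starMap u b)) v' = b.fst • 1 + ι (qf (σ (u b.snd)) v) := by
    rw [hσ', ← e1, ← e2]
    simp only [qf, CStarMatrix.add_apply, add_smul, Finset.sum_add_distrib]
  have h2 : qf (σ' (Unitization.starMap u b)) v' - b = ι (qf (σ (u b.snd)) v - b.snd) := by
    rw [e3, map_sub]
    have : b = b.fst • 1 + ι b.snd := by
      conv_lhs => rw [← Unitization.inl_fst_add_inr_snd_eq b]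
      rw [← hι, ← Algebra.algebraMap_eq_smul_one]
      rfl
    have h5 : ∀ u w z y : Unitization ℂ X, z = u + w → u + y - z = y - w := by
      intro u w z y h
      rw [h]; abel
    exact h5 _ _ _ _ this
  rw [h2]
  change ‖((qf (σ (u b.snd)) v - b.snd : X) : Unitization ℂ X)‖ < ε
  rw [Unitization.norm_inr]
  exact hσ _ (Finset.mem_image_of_mem _ hb)

end Pool.Agent.Helper54.CF2.UNTI
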